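import Mathlib
import Pool.Agent.H92.AF5

open Set Metric Complex Filter Topology H92.AF

namespace Pool.Agent.Results.MP_564bf3_an.Triangle

def V : Set (E 2) := {![0, 0], ![1, 0], ![0, 1]}

lemma V_fin : V.Finite := by unfold V; exact toFinite _

lemma V_real : IsReal V := by
  rintro k (rfl | rfl | rfl) j <;> fin_cases j <;> simp

def K : Set (E 2) := convexHull ℝ V

lemma VK : V ⊆ K := subset_convexHull ℝ V

lemma span_top : affineSpan ℂ K = ⊤ := by
  rw [eq_top_iff]
  intro z _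
  have h0 : (![0, 0] : E 2) ∈ affineSpan ℂ K := subset_affineSpan ℂ K (VK (by simp [V]))
  have h1 : (![1, 0] : E 2) ∈ affineSpan ℂ K := subset_affineSpan ℂ K (VK (by simp [V]))
  have h2 : (![0, 1] : E 2) ∈ affineSpan ℂ K := subset_affineSpan ℂ K (VK (by simp [V]))
  have := (affineSpan ℂ K).smul_vsub_vadd_mem (z 0) h1 h0
    ((affineSpan ℂ K).smul_vsub_vadd_mem (z 1) h2 h0 h0)
  convert this using 1
  ext j; fin_cases j <;> simp

lemma supp0_empty {I : Set (E 2)} (hI : I ⊆ K) (h : ∀ x ∈ K.extremePoints ℝ, x ∉ I) :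
    Supp0 K I = ∅ := by
  rw [eq_empty_iff_forall_notMem]
  rintro _ ⟨-, x, ⟨hx, -⟩, P, -, hP⟩
  have hK : IsReal K := isReal_hull V_real
  have key : ∀ c : ℝ, c ≠ 0 →
      AffineSubspace.mk' x (Submodule.span ℂ {![1, c * Complex.I]}) = P := by
    intro c hc
    refine hP _ ⟨⟨by rw [span_top]; exact le_top, ?_, ⟨x, AffineSubspace.self_mem_mk' _ _, hx.1⟩,
      disjoint_left.2 fun y hy hyI => ?_⟩, AffineSubspace.self_mem_mk' _ _⟩
    · rw [span_top, AffineSubspace.direction_top, AffineSubspace.direction_mk',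
        finrank_span_singleton (fun h => by simpa using congrFun h 0)]
      simp
    · obtain ⟨t, ht⟩ := Submodule.mem_span_singleton.1 (AffineSubspace.mem_mk'.1 hy)
      have a0 := congrArg im (congrFun ht 0)
      have a1 := congrArg im (congrFun ht 1)
      simp [hK y (hI hyI), hK x hx.1, hc] at a0 a1
      have : t = 0 := Complex.ext a1 a0
      rw [this, zero_smul, eq_comm, vsub_eq_zero_iff_eq] at ht
      exact h x hx (ht ▸ hyI)
  have e := congrArg AffineSubspace.direction ((key 1 one_ne_zero).trans (key 2 two_ne_zero).symm)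
  rw [AffineSubspace.direction_mk', AffineSubspace.direction_mk'] at e
  obtain ⟨t, ht⟩ := Submodule.mem_span_singleton.1
    (e ▸ Submodule.mem_span_singleton_self (R := ℂ) (![1, (1:ℝ) * Complex.I] : E 2))
  have a0 := congrFun ht 0
  have a1 := congrArg im (congrFun ht 1)
  simp at a0
  simp [a0] at a1

lemma not_relInt (x : E 2) : x ∉ relInt K := by
  rintro ⟨hx, ε, hε, h⟩
  have hK : IsReal K := isReal_hull V_real
  have := hK _ (h (a := x + fun _ => (ε / 2 : ℝ) * Complex.I) ⟨?_, by rw [span_top]; trivial⟩) 0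
  · simp [hK x hx] at this; linarith
  · rw [mem_ball_iff_norm, add_sub_cancel_left, pi_norm_const]
    simp [abs_of_pos hε]; linarith

lemma not_intr {x : E 2} (hx : x ∈ K.extremePoints ℝ) : x ∉ intrinsicInterior ℝ K := by
  intro h
  obtain ⟨x', hx', rfl⟩ := mem_intrinsicInterior.1 h
  have key : ∀ y ∈ K, y = x' := by
    intro y hy
    let γ : ℝ → affineSpan ℝ K := fun t => ⟨AffineMap.lineMap (x' : E 2) y (-t),
      AffineMap.lineMap_mem _ x'.2 (subset_affineSpan ℝ K hy)⟩
    have hγ : Continuous γ := Continuous.subtype_mk (by fun_prop) _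
    have h0 : γ 0 = x' := by simp [γ]
    obtain ⟨t, ht, h⟩ := small _ (hγ.continuousAt.eventually_mem
      (h0 ▸ mem_interior_iff_mem_nhds.1 hx'))
    refine (hx.2 hy h ⟨t / (1 + t), 1 / (1 + t), by positivity, by positivity, by field_simp; ring,
      ?_⟩)
    simp only [γ, AffineMap.lineMap_apply, vsub_eq_sub, vadd_eq_add]
    match_scalars <;> field_simp <;> ring
  have a := (key _ (VK (a := ![0, 0]) (by simp [V]))).trans
    (key _ (VK (a := ![1, 0]) (by simp [V]))).symm
  simpa using congrFun a 0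

noncomputable def T0 : Ent 2 →ₗ[ℂ] ℂ where
  toFun f := f.1 ![0, 0] + f.1 ![1, 0] + f.1 ![0, 1]
  map_add' f g := by simp; ring
  map_smul' c f := by simp; ring

lemma bdd {L : Set (E 2)} (h : V ⊆ L) : BoundedBy T0 L := ⟨3, fun f M _ hM => by
  have a := hM _ (h (a := ![0, 0]) (by simp [V]))
  have b := hM _ (h (a := ![1, 0]) (by simp [V]))
  have c := hM _ (h (a := ![0, 1]) (by simp [V]))
  exact (norm_add₃_le).trans (by linarith)⟩

lemma mem_of_carrier {K' : Set (E 2)} (hc : Convex ℝ K') (h : Carrier T0 K') {v : E 2}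
    {P : E 2 → ℂ} (hP : Differentiable ℂ P)
    (hv : ∀ g : E 2 → ℂ, P ![0, 0] * g ![0, 0] + P ![1, 0] * g ![1, 0] + P ![0, 1] * g ![0, 1] = g v) :
    v ∈ K' := by
  by_contra hn
  obtain ⟨f, u, hf1, hf2⟩ := geometric_hahn_banach_closed_point hc h.1.isClosed hn
  obtain ⟨z, hz⟩ := exists_Bl f
  obtain ⟨L, hL, hLu, C, hC⟩ := h.2 {s | f s < u} (isOpen_lt f.continuous continuous_const) hf1
  obtain ⟨M, hM⟩ := hL.exists_bound_of_continuousOn hP.continuous.continuousOn
  have key : ∀ t : ℝ, 0 ≤ t → 1 ≤ C * (|M| * Real.exp (-((f v - u) * t))) := by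
    intro t ht
    have := hC ⟨fun s => P s * exp (t * Bl (s - v) z), hP.mul ((diff_Bl v z).const_mul _).cexp⟩
      (|M| * Real.exp (-((f v - u) * t))) (by positivity) fun s hs => by
        rw [norm_mul, norm_exp, re_ofReal_mul, ← hz, map_sub]
        have : f s < u := hLu hs
        gcongr
        · exact (hM s hs).trans (le_abs_self _)
        · nlinarith
    simp only [T0, LinearMap.coe_mk, AddHom.coe_mk] at this
    rw [hv fun s => exp (t * Bl (s - v) z)] at this
    simpa [Bl] using this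
  have t : Tendsto (fun t : ℝ => C * (|M| * Real.exp (-((f v - u) * t)))) atTop (𝓝 (C * (|M| * 0))) :=
    ((Real.tendsto_exp_neg_atTop_nhds_zero.comp
      (tendsto_id.const_mul_atTop (sub_pos.2 hf2))).const_mul _).const_mul _
  have := ge_of_tendsto t ((eventually_ge_atTop 0).mono key)
  norm_num at this

theorem joined :
    (∀ (n : ℕ) (V : Set (Fin n → ℂ)), V.Finite → (∀ v ∈ V, ∀ j, (v j).im = 0) →
      UniqueCSupport (convexHull ℝ V)) ∧
    ∃ K : Set (Fin 2 → ℂ), Convex ℝ K ∧ IsCompact K ∧ affineSpan ℂ K = ⊤ ∧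
      (∃ T, IsAF T ∧ CSupport T K) ∧ UniqueCSupport K ∧ (Supp K).Nonempty ∧
      Supp0 K (relInt K) = ∅ ∧ Supp0 K (intrinsicInterior ℝ K) = ∅ := by
  have hc : IsCompact K := V_fin.isCompact_convexHull ℝ
  refine ⟨fun n V h1 h2 => unique_hull h1 h2, K, convex_convexHull ℝ V, hc, span_top,
    ⟨T0, ⟨K, hc, bdd VK⟩, ⟨convex_convexHull ℝ V, hc, fun ω _ h => ⟨K, hc, h, bdd VK⟩⟩, ?_⟩,
    unique_hull V_fin V_real, ?_, supp0_empty (fun _ h => h.1) fun x _ => not_relInt x,
    supp0_empty intrinsicInterior_subset fun x hx => not_intr hx⟩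
  · rintro K' ⟨h1, h2⟩ -
    refine convexHull_min ?_ h1
    rintro v (rfl | rfl | rfl)
    · exact mem_of_carrier h1 h2 (P := fun s => 1 - s 0 - s 1) (by fun_prop) fun g => by simp
    · exact mem_of_carrier h1 h2 (P := fun s => s 0) (by fun_prop) fun g => by simp
    · exact mem_of_carrier h1 h2 (P := fun s => s 1) (by fun_prop) fun g => by simp
  · let l : E 2 →L[ℝ] ℝ := reCLM.comp (ContinuousLinearMap.proj 0)
    refine ⟨_, l, 1, fun h => ?_, rfl, ⟨![1, 0], by simp [l], VK (by simp [V])⟩, fun z hz => ?_⟩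
    · simpa [l] using congrArg (fun f : E 2 →L[ℝ] ℝ => f ![1, 0]) h
    · refine convexHull_min (t := {z | l z ≤ 1}) ?_ (convex_halfSpace_le l.isLinear _) hz
      rintro v (rfl | rfl | rfl) <;> simp [l]

theorem result :
    ∃ K : Set (Fin 2 → ℂ), Convex ℝ K ∧ IsCompact K ∧ affineSpan ℂ K = ⊤ ∧
      (∃ T, IsAF T ∧ CSupport T K) ∧ UniqueCSupport K ∧ (Supp K).Nonempty ∧
      Supp0 K (relInt K) = ∅ ∧ Supp0 K (intrinsicInterior ℝ K) = ∅ := joined.2

end Pool.Agent.Results.MP_564bf3_an.Triangle
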